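import Mathlib
import Pool.Agent.Lib.MP_a662fc_lc.Defs
import Pool.Agent.Lib.MP_a662fc_lc.Main

/-!
Q2, full (negative) answer: some gap in the class `S` of semidecision times of infinite time Turing
machines begins with a non-admissible ordinal; moreover this gap has length at least `ω ^ 2`.

The definitions (`Prog`, `Prog.run`, `Prog.HaltsAt`, `Prog.dom`, `Prog.decisionTime`,
`SemidecisionTimes`, `IsGap`, `BeginsGap`, `LL`, `KP`, `Admissible`) are in
`Pool.Agent.Lib.MP_a662fc_lc.Defs`.

Idea of the proof. A program and a block of `ω` stages give a closed game with payoff on a sum of
two countable ordinals; all these games belong to one universal family indexed by `ℕ`. Call a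
countable ordinal `κ` good if it is a limit, if the games over `a + b` with `a, b < κ` stabilise
before `κ`, and if there is a bound `γ₀ < κ` such that for every game of the family over `κ + γ`
the prover either loses for all `γ ≥ γ₀` or wins for cofinally many `γ < κ`. Let `κ` be the least
good ordinal. The set of the tables of the ranks of these games without a good ordinal is
semidecidable in time at most `ω (κ + 3)`, but not in less than `ω κ`; by the last property of `κ`
no semidecision time lies between `ω (κ + γ₀)` and `ω (κ + κ)`. So a gap of `S` begins strictly
between `ω κ` and `ω κ + ω κ`, and no ordinal there is admissible.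
-/

namespace Pool.Agent.Results.MP_a662fc_lc.NonAdmissibleGap

open Ordinal Pool.Agent.MPa662fc

/-- Some non-admissible ordinal `β` begins a gap in the class `S` of semidecision times, and this
gap has length at least `ω ^ 2`. -/
theorem result : ∃ β : Ordinal.{0}, BeginsGap SemidecisionTimes β ∧ ¬ Admissible β ∧
    ∀ s ∈ SemidecisionTimes, β ≤ s → β + ω * ω ≤ s :=
  main

end Pool.Agent.Results.MP_a662fc_lc.NonAdmissibleGap
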